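import Pool.Agent.Helper99.EXC.GoalsD

/-! Packet EXC YBD (MP_f41a60_pr, for helper99). -/

set_option autoImplicit false

open Finset

namespace Pool.Agent.Helper3.EXC

open Pool.Agent.Helper99.ERW Pool.Agent.Helper99.EXC

lemma vec_abs (e : Dir 2) (i : Fin 2) : |vec e i| ≤ 1 := by
  obtain ⟨l, t⟩ := e
  fin_cases l <;> fin_cases i <;> cases t <;> simp [vec]

lemma Bx_step {b s : ℕ} (hb : 1 ≤ b) {x : Site 2} (hx : x ∈ Bx b (s + 1)) (e : Dir 2) :
    x + vec e ∈ Bx b (s + 2) := by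
  unfold Bx at hx ⊢
  rw [mem_box] at hx ⊢
  intro i
  have h1 := hx i
  have h2 := vec_abs e i
  have h3 : 1 ≤ b * 2 ^ (s + 1) := Nat.one_le_iff_ne_zero.2 (by positivity)
  have h4 : b * 2 ^ (s + 2) = b * 2 ^ (s + 1) + b * 2 ^ (s + 1) := by ring
  simp only [Pi.add_apply]
  push_cast [h4] at h1 ⊢
  have h5 : (1 : ℤ) ≤ (b : ℤ) * 2 ^ (s + 1) := by exact_mod_cast h3
  have h6 := abs_add_le (x i) (vec e i)
  linarith

lemma Bx_mono {b s : ℕ} {x : Site 2} (hx : x ∈ Bx b (s + 1)) : x ∈ Bx b (s + 2) := by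
  unfold Bx at hx ⊢
  rw [mem_box] at hx ⊢
  intro i
  have h1 := hx i
  have h4 : b * 2 ^ (s + 2) = b * 2 ^ (s + 1) + b * 2 ^ (s + 1) := by ring
  push_cast [h4] at h1 ⊢
  have h5 : (0 : ℤ) ≤ (b : ℤ) * 2 ^ (s + 1) := by positivity
  linarith

lemma V_nonneg {a : ℝ} {p : Site 2 → ℕ → ℝ} {V : Site 2 → ℝ} {Tl : Site 2 → ℕ → ℝ}
    {Si : Site 2 → ℝ} (h : Cook a p V Tl Si) (z : Site 2) : 0 ≤ V z := by
  have := h.tv z 0
  simpa [Vm] using this

theorem YBD (hLTM : LTM_stmt) : YBD_stmt := by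
  intro a p V Tl Si φ Φ κ C b k1 hc hs k s hk hks N s0
  have hC : 0 ≤ C := le_trans zero_le_one hs.cone
  have hw : 0 ≤ ww V b s := Finset.sum_nonneg fun z _ => div_nonneg (V_nonneg hc z) (by positivity)
  have hks' : (k : ℝ) ≤ s := by exact_mod_cast hks
  have hκ := hs.kpos
  by_cases h0 : s0.1 ∈ Bx b (s + 1)
  swap
  · rw [Rw_out p _ N _ h0]
    have := mul_nonneg hκ.le (sub_nonneg.2 hks')
    positivity
  have e1 := tele p (Bx b (s + 1)) N (F := fun s => Φ k s.1)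
    (g := fun s => La a (Φ k) s.1 + dS a p s * Df (Φ k) s.1)
    (fun s _ => by rw [stp_pos p a (Φ k) s]; ring) s0
  rw [Rw_add] at e1
  have e2 : Ex p (Bx b (s + 1)) N (fun s => Φ k s.1) s0 ≤ κ * s + C := by
    have := Ex_mono_inv hc.p0 hc.p1 (Bx b (s + 1)) N (f := fun s => Φ k s.1)
      (g := fun _ => κ * s + C) (I := fun t => t.1 ∈ Bx b (s + 2))
      (fun t _ ht e => Bx_step hs.bone ht e) (fun t ht => hs.up k s hk hks t.1 ht) s0 (Bx_mono h0)
    rwa [Ex_const] at this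
  have e3 := hs.low k s0.1
  have e4 : |Rw p (Bx b (s + 1)) N (fun s => dS a p s * Df (Φ k) s.1) s0| ≤ C * ww V b s := by
    refine (Rw_abs hc.p0 hc.p1 _ N _ s0).trans ?_
    have h1 := (hLTM a p V Tl Si hc (Bx b (s + 1)) N s0).2.1 (Df (Φ k))
    have h2 : (fun s => |dS a p s * Df (Φ k) s.1|) = fun s => |Df (Φ k) s.1| * |dS a p s| := by
      funext s
      rw [abs_mul, mul_comm]
    rw [h2]
    refine h1.trans ?_
    unfold ww
    rw [Finset.mul_sum]
    refine Finset.sum_le_sum fun z _ => ?_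
    have h3 := mul_le_mul_of_nonneg_right (hs.dphi2 k hk z) (V_nonneg hc z)
    refine h3.trans (le_of_eq ?_)
    ring
  have e5 := neg_le_of_abs_le e4
  nlinarith

end Pool.Agent.Helper3.EXC
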